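import Pool.Agent.Lib.MP_2710d6_gt.Main

/-! On a flat four-torus, Donaldson's energy on `S_a` has exactly one critical point. -/

namespace Pool.Agent.Lib.MP_2710d6_gt.Old.DonaldsonEnergy

open Pool.Agent.Don

theorem result (b : Module.Basis (Fin 4) ℝ Pt) (A : Fin 4 → Fin 4 → ℝ)
    (_hA : ∀ a c, A c a = -A a c) (ρ : Pt → Fin 4 → Fin 4 → ℝ) (hρ : InClass b A ρ) :
    IsCritical b ρ ↔ ∀ x, ρ x = A :=
  main hρ

end Pool.Agent.Lib.MP_2710d6_gt.Old.DonaldsonEnergy
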