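import Pool.Agent.Lib.MP_2710d6_gt.HK.Conv
import Pool.Agent.Lib.MP_2710d6_gt.HK.Torus

/-! Critical points of Donaldson's energy on a closed hyperkaehler four-manifold. -/

open MeasureTheory
open scoped Manifold ContDiff

namespace Pool.Agent.Lib.MP_2710d6_gt.Old.HyperkaehlerEnergy

open Pool.Agent.DonHK

theorem result {M : Type} [TopologicalSpace M] [T2Space M] [CompactSpace M] [ConnectedSpace M]
    [ChartedSpace Pt M] [IsManifold 𝓘(ℝ, Pt) ∞ M] [MeasurableSpace M] [BorelSpace M]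
    (Ω : Fin 3 → Form2 M) (hΩ : IsHK Ω) (μ : Measure M) (hμ : IsVol (Ω 0) μ)
    (ρ : Form2 M) (hρ : Closed2 ρ) (hpos : ∀ x, 0 < quot (Ω 0) ρ ρ x) :
    List.TFAE [IsCritical Ω μ ρ,
      ∃ c : Fin 3 → ℝ, ∀ i x, quot (Ω 0) ρ (Ω i) x = c i * quot (Ω 0) ρ ρ x,
      ∀ σ : Form2 M, Closed2 σ → (∀ x, 0 < quot (Ω 0) σ σ x) →
        Exact (fun x => lin (σ x) (ρ x) (-1)) → σ ≠ ρ → energy Ω μ ρ < energy Ω μ σ] := by
  have e : ∀ σ : Form2 M, (fun x => lin (σ x) (ρ x) (-1)) = σ - ρ := fun σ => by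
    ext x u v
    change σ x u v + -1 * ρ x u v = σ x u v - ρ x u v
    ring
  simp only [e]
  tfae_have 1 ↔ 2 := main hΩ hμ hρ hpos
  tfae_have 1 ↔ 3 := ⟨fun hc σ hσ hs => strict_min hΩ hμ hρ hpos hc hσ hs,
    critical_of_min hΩ hμ hρ hpos⟩
  tfae_finish

/-- Every class has at most one critical point. -/
theorem at_most_one {M : Type} [TopologicalSpace M] [T2Space M] [CompactSpace M]
    [ConnectedSpace M] [ChartedSpace Pt M] [IsManifold 𝓘(ℝ, Pt) ∞ M] [MeasurableSpace M]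
    [BorelSpace M] (Ω : Fin 3 → Form2 M) (hΩ : IsHK Ω) (μ : Measure M) (hμ : IsVol (Ω 0) μ)
    (ρ σ : Form2 M) (hρ : Closed2 ρ) (hpos : ∀ x, 0 < quot (Ω 0) ρ ρ x) (hσ : Closed2 σ)
    (hs : ∀ x, 0 < quot (Ω 0) σ σ x) (ha : Exact (σ - ρ)) (h1 : IsCritical Ω μ ρ)
    (h2 : IsCritical Ω μ σ) : σ = ρ := by
  by_contra hne
  have hb : Exact (ρ - σ) := neg_sub σ ρ ▸ ha.neg
  exact lt_asymm (strict_min hΩ hμ hρ hpos h1 hσ hs ha hne)
    (strict_min hΩ hμ hσ hs h2 hρ hpos hb (Ne.symm hne))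

/-- In the class of `Ω 0` the only critical point is `Ω 0` itself. -/
theorem only_minimum {M : Type} [TopologicalSpace M] [T2Space M] [CompactSpace M]
    [ConnectedSpace M] [ChartedSpace Pt M] [IsManifold 𝓘(ℝ, Pt) ∞ M] [MeasurableSpace M]
    [BorelSpace M] (Ω : Fin 3 → Form2 M) (hΩ : IsHK Ω) (μ : Measure M) (hμ : IsVol (Ω 0) μ)
    (ρ : Form2 M) (hρ : Closed2 ρ) (hpos : ∀ x, 0 < quot (Ω 0) ρ ρ x) (ha : Exact (ρ - Ω 0)) :
    IsCritical Ω μ ρ ↔ ρ = Ω 0 :=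
  unique hΩ hμ hρ hpos ha

/-- The hypotheses are met by the flat torus `(ℝ / ℤ) ^ 4`. -/
theorem flat_torus : ∃ (_ : ChartedSpace Pt (Fin 4 → UnitAddCircle))
    (_ : IsManifold 𝓘(ℝ, Pt) ∞ (Fin 4 → UnitAddCircle))
    (Ω : Fin 3 → Form2 (Fin 4 → UnitAddCircle)) (μ : Measure (Fin 4 → UnitAddCircle)),
    IsHK Ω ∧ IsVol (Ω 0) μ :=
  torus

end Pool.Agent.Lib.MP_2710d6_gt.Old.HyperkaehlerEnergy
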